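import Pool.Agent.X30.MaierW

set_option autoImplicit false

/-!
# The numbers of primes in windows of different lengths `(log n)^B` satisfy no linear relation

For `B > 0` let `D_B(n)` be the number of primes in `(n, n + (log n)^B]` divided by its mean order `(log n)^(B-1)`. In
Cramér's model `D_B(n)` tends to `1` for every `B > 2`; Maier (1985) showed that each single `D_B` has limit points on
both sides of `1`. Here: for distinct `B_1, ..., B_k` and real `c_1, ..., c_k`, not all zero, with sum zero, the
combination `c_1 D_(B_1)(n) + ... + c_k D_(B_k)(n)`, which tends to `0` in Cramér's model if all `B_i > 2`, has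
positive upper limit (and, by passing to `-c`, negative lower limit): it is at least a constant `δ > 0` for at least
`X exp (-(log X)^ε)` of the integers `n ≤ X`, for every `ε > 0` and all large `X`. So the irregularities found by Maier
are not common to the scales, and the densities at different scales satisfy no asymptotic linear relation, not even
an inequality.

Method: the rows `n ≡ 0 (mod W)` of a Maier matrix, where `W` is the product of the primes (without exceptional ones) in
`((log X)^a, (log X)^b]` with `b` close to `a` and `a` so chosen that no `B_i / a` is an integer. For the integers up to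
`(log X)^(B_i)` prime to `W` inclusion-exclusion stops at `k_i = [B_i / a]` factors; its error against the product has
the sign `(-1)^(k_i)` and size between two constants times `log (b/a)^(k_i + 1)`, so the term of the smallest scale
dominates, and its sign can be prescribed by the parity of `k_i`.
-/

namespace Pool.Agent.Results.MP_ff81b6_nt.ContrastsBetweenScales

/-- The number of primes `p` with `n < p ≤ n + (log n)^B`, divided by `(log n)^(B-1)`. -/
noncomputable def density (B : ℝ) (n : ℕ) : ℝ :=
  (((Finset.Ioc n ⌊(n : ℝ) + (Real.log n) ^ B⌋₊).filter Nat.Prime).card : ℝ) / (Real.log n) ^ (B - 1)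

theorem result (k : ℕ) (B c : Fin k → ℝ) (hB : ∀ i, 0 < B i) (hinj : Function.Injective B) (hc : c ≠ 0)
    (hsum : ∑ i, c i = 0) (ε : ℝ) (hε : 0 < ε) : ∃ δ : ℝ, 0 < δ ∧ ∃ X₀ : ℝ, ∀ X : ℝ, X₀ ≤ X →
      X * Real.exp (-(Real.log X) ^ ε) ≤
        (((Finset.Icc 1 ⌊X⌋₊).filter (fun n : ℕ => δ ≤ ∑ i, c i * density (B i) n)).card : ℝ) := by
  have hc' : ∃ i ∈ (Finset.univ : Finset (Fin k)), c i ≠ 0 := by
    by_contra h
    push Not at h
    exact hc (funext fun i => h i (Finset.mem_univ i))
  exact Pool.Agent.X30.MWW.main Finset.univ B c (fun i _ => hB i)
    (fun i _ j _ hij h => hij (hinj h)) hc' hsum ε hε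

end Pool.Agent.Results.MP_ff81b6_nt.ContrastsBetweenScales
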