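import Pool.Agent.H361R2.PA.MultA

set_option autoImplicit false

/-!
# Record gaps around a small multiple of every integer `α ≤ exp((log X)^A)`

Write `f(X) = log X (log₂ X)² log₄ X / (log₃ X)²`, the size of the largest prime gaps known below `X`. For every `D`
there is `c > 0` such that for all large `X`, ALL integers `α` with `1 ≤ α ≤ exp((log X)^(D+1))` and all integers `z`
some `n` in `(z + X/4, z + X]` is such that no prime lies within `c (φ(α)/α) f(X)` of `α n`. The multipliers may be much
larger than every power of `X`; the gap is then long in terms of the multiplier `n` and not of `α n`. The starting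
theorem `MP_c853c5_nt.EveryMultiplier` has `|α| ≤ X^D` (and prime `n`); `MP_028722_nt.SimultaneousGaps` has `α ≤ f(X)`.

Proof: the starting file `Pool.Agent.H361R2.PA.MultA` (a variant of the covering theorem of `Pool.Agent.H256R2.SC`, in
which the primes dividing `α` are not used), which belongs to no starting result.
-/

namespace Pool.Agent.Results.MP_ff81b6_nt.HugeMultipliers

/-- `f(X) = log X (log₂ X)² log₄ X / (log₃ X)²` -/
noncomputable def f (X : ℝ) : ℝ :=
  Real.log X * (Real.log (Real.log X)) ^ 2 * Real.log (Real.log (Real.log (Real.log X))) /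
    (Real.log (Real.log (Real.log X))) ^ 2

theorem result (D : ℕ) : ∃ c : ℝ, 0 < c ∧ ∃ X₀ : ℝ, ∀ X : ℝ, X₀ ≤ X →
    ∀ α : ℕ, 1 ≤ α → Real.log α ≤ (Real.log X) ^ (D + 1) →
    ∀ z : ℤ, ∃ n : ℤ, (z : ℝ) + X / 4 < n ∧ (n : ℝ) ≤ z + X ∧
      ∀ q : ℕ, q.Prime → c * ((Nat.totient α : ℝ) / α * f X) < |(q : ℝ) - (α : ℝ) * n| := by
  obtain ⟨c, hc, X₀, h⟩ := Pool.Agent.H361R2.PA.multM D
  refine ⟨c, hc, X₀, fun X hX α hα hαX z => ?_⟩
  obtain ⟨n, h1, h2, h3⟩ := h X hX α hα hαX z
  refine ⟨n, h1, h2, fun q hq => ?_⟩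
  by_contra hcon
  push Not at hcon
  have h4 := h3 ((q : ℤ) - α * n) (by
    push_cast
    have hF : Pool.Agent.H361R2.PA.FF 1 X = f X := by
      unfold Pool.Agent.H361R2.PA.FF f
      simp
    rw [hF]
    exact hcon)
  apply h4
  have h5 : (α : ℤ) * n + ((q : ℤ) - α * n) = q := by ring
  rw [h5]
  exact Nat.prime_iff_prime_int.1 hq

end Pool.Agent.Results.MP_ff81b6_nt.HugeMultipliers
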