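import Pool.Agent.X30.FreqC

set_option autoImplicit false

/-!
# How often is a window of length `C log X log log X` free of primes?

For a large constant `C`, windows of length `C log X log log X` all of whose integers have a prime factor
at most `X^δ` start at no fewer than `X exp (-(log X)^θ)` integers of every interval of length `X`, where
`θ = 1 - c log log C / (C log C) < 1` and `c < 1 / 2` is arbitrary.
-/

namespace Pool.Agent.Results.MP_ff81b6_nt.WindowsOfLengthCLogLoglog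

/-- the integers `n` with `M ≤ n` and `n + F ≤ M + X` such that each of the integers
`n + k`, `1 ≤ k ≤ F`, has a prime factor `p ≤ y` -/
def Starts (M X F y : ℝ) : Set ℤ :=
  {n : ℤ | M ≤ n ∧ (n : ℝ) + F ≤ M + X ∧
    ∀ k : ℕ, 1 ≤ k → (k : ℝ) ≤ F → ∃ p : ℕ, p.Prime ∧ (p : ℝ) ≤ y ∧ (p : ℤ) ∣ n + k}

theorem result : ∀ c δ : ℝ, 0 < c → c < 1 / 2 → 0 < δ →
    ∃ C₀ : ℝ, ∀ C : ℝ, C₀ ≤ C → ∃ X₀ : ℝ, ∀ X : ℝ, X₀ ≤ X → ∀ M : ℝ,
      X * Real.exp (-(Real.log X) ^ (1 - c * Real.log (Real.log C) / (C * Real.log C))) ≤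
        ((Starts M X (C * (Real.log X * Real.log (Real.log X))) (X ^ δ)).ncard : ℝ) :=
  fun c δ hc hc2 hδ => Pool.Agent.X30.Freq.freq c δ hc hc2 hδ

end Pool.Agent.Results.MP_ff81b6_nt.WindowsOfLengthCLogLoglog
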