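import Pool.Agent.X30.Few3

set_option autoImplicit false

/-!
# Windows with few primes, of every length from `log X` to a power of `log X`, in every interval of length `X`

Let `e log X ≤ y ≤ (log X)^(5/4)` and write `y = (log X)^(1 + β)`, so that `1 / log log X ≤ β ≤ 1/4`. For every `ε > 0`
there is `C` such that for all large `X` and ALL `M` at least `X^(1-ε)` integers `n ∈ (M, M + X]` are such that
`(n, n + y]` contains at most `C β log (1/β) / log log (1/β)` times the expected number `y / log X` of primes. This is
uniform in the length `y` and in the place `M`. At the lower end (`y` a small multiple of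
`log X log₂ X log₄ X / (log₃ X)²`, iterated logarithms) the bound is smaller than `1`: the windows are free of primes, as
in Rankin's theorem on large gaps; for fixed `β` the factor tends to `0` with `β`, as in the theorem of Maier and
Stewart (2007) on the lower limit of the number of primes in `(x, x + (log x)^(1+β)]`.

Method: only the primes in `(z, c log X]` are used, with `z = (log X)^(1/(k+1))` and `k` about
`2 log (1/β) / log log (1/β)`, all with the residue class `0`. A survivor `h ≤ y` is either `z`-smooth (at most
`C 2^k / k!` of all integers, by an elementary recurrence) or has a prime factor above `c log X` (at most `C β` of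
all integers). The Brun-Titchmarsh inequality for the survivors and an average over the multiples of the modulus
in `(M, M + X]` finish the proof.
-/

namespace Pool.Agent.Results.MP_ff81b6_nt.WindowsWithFewPrimes

/-- the number of primes `p` with `n < p ≤ n + y` -/
def primesIn (n y : ℕ) : ℕ := ((Finset.Ioc n (n + y)).filter Nat.Prime).card

/-- the number `β` with `y = (log X)^(1 + β)` -/
noncomputable def scale (X y : ℕ) : ℝ := Real.log (y / Real.log X) / Real.log (Real.log X)

/-- `β log (1/β) / log log (1/β)` -/
noncomputable def gain (β : ℝ) : ℝ := β * (Real.log (1 / β) / Real.log (Real.log (1 / β)))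

theorem result (ε : ℝ) (hε : 0 < ε) : ∃ C X₀ : ℝ, ∀ X : ℕ, X₀ ≤ X → ∀ M y : ℕ,
    Real.exp 1 * Real.log X ≤ y → (y : ℝ) ≤ (Real.log X) ^ (5 / 4 : ℝ) →
    (X : ℝ) ^ (1 - ε) ≤ (((Finset.Ioc M (M + X)).filter (fun n => (primesIn n y : ℝ) ≤
      C * ((y / Real.log X) * gain (scale X y)))).card : ℝ) := by
  obtain ⟨C, X₀, h⟩ := Pool.Agent.X30.FW.few (min ε 1) (lt_min hε one_pos) (min_le_right _ _)
  refine ⟨C, max X₀ 1, fun X hX M y h1 h2 => ?_⟩
  refine le_trans ?_ (h X ((le_max_left _ _).trans hX) M y h1 h2)
  apply Real.rpow_le_rpow_of_exponent_le ((le_max_right _ _).trans hX)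
  have := min_le_left ε 1
  linarith

end Pool.Agent.Results.MP_ff81b6_nt.WindowsWithFewPrimes
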